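import Pool.Agent.helper31.RLS.Spec

/-! Row CB of the project RLS: the step of the lower bound. -/

set_option autoImplicit false

namespace Pool.Agent.RLS

open Finset

theorem CB_vvnn (g : ℕ → ℝ) (P : Finset ℕ) (h : ∀ p ∈ P, 0 ≤ g p ∧ g p < 1) (Q : Finset ℕ) (hQ : Q ⊆ P) :
    0 ≤ VV g Q := by
  unfold VV
  exact Finset.prod_nonneg fun p hp => by have := (h p (hQ hp)).2; linarith

theorem CB (h1 : BU_stmt) (h2 : PS_stmt) (h3 : GI_stmt) : CB_stmt := by
  intro u A F f hu D g om et e y L P hom het he hy h2y hL G H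
  obtain ⟨gi1, gi2, gi3, gi4⟩ := h3 g om et y P hom hy G
  have hy0 : 0 < y := lt_of_lt_of_le hom hy
  have hL0 : 0 < L := by linarith
  have hb : L / om ≤ u := by rw [div_le_iff₀ hom]; exact hL
  have ha : 2 ≤ L / y := by rw [le_div_iff₀ hy0]; linarith
  have hab : L / y ≤ L / om := div_le_div_of_nonneg_left hL0.le hom hy
  have hF4 : ∀ s, 1 ≤ s → s ≤ u → F s ≤ 4 := by
    intro s hs1 hs2
    have hh := D.Fa (Set.mem_Icc.2 ⟨le_refl 1, by linarith⟩ : (1 : ℝ) ∈ Set.Icc 1 u) (Set.mem_Icc.2 ⟨hs1, hs2⟩) hs1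
    have h11 := D.Fs 1 (le_refl 1) (by norm_num)
    have hA4 := D.A4
    rw [h11] at hh
    simp only [div_one] at hh
    linarith
  have hx : ∀ p ∈ P, L / y ≤ L / Real.log p ∧ L / Real.log p ≤ L / om := by
    intro p hp
    obtain ⟨hp1, hp2⟩ := G.rng p hp
    have hp0 : 0 < Real.log p := lt_of_lt_of_le hom hp1
    exact ⟨div_le_div_of_nonneg_left hL0.le hp0 hp2, div_le_div_of_nonneg_left hL0.le hom hp1⟩
  have hc : ∀ p ∈ P, 0 ≤ g p * VV g (bel P p) := by
    intro p hp
    exact mul_nonneg (G.g01 p hp).1 (CB_vvnn g P G.g01 _ (Finset.filter_subset _ _))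
  have hkb : om / L * (L / om) = 1 := by field_simp
  have hka : om / L * (L / y) = om / y := by field_simp
  -- the bound for the single terms
  have hterm : ∀ p ∈ P, g p * SS true g (L - Real.log p) (bel P p) ≤
      g p * VV g (bel P p) * F (L / Real.log p - 1) + (4 * et + e) * g p := by
    intro p hp
    obtain ⟨hp1, hp2⟩ := G.rng p hp
    have hp0 : 0 < Real.log p := lt_of_lt_of_le hom hp1
    have hx1 := hx p hp
    have hs := H p hp
    have he1 : (L - Real.log p) / Real.log p = L / Real.log p - 1 := by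
      field_simp
    rw [he1] at hs
    have hF0 := D.F1 (L / Real.log p - 1) (by linarith [hx1.1]) (by linarith [hx1.2])
    have hF4' := hF4 (L / Real.log p - 1) (by linarith [hx1.1]) (by linarith [hx1.2])
    have ht := (abs_le.1 (gi1 p hp).tot).1
    have hm : om / Real.log p * F (L / Real.log p - 1) ≤
        (VV g (bel P p) + et) * F (L / Real.log p - 1) :=
      mul_le_mul_of_nonneg_right (by linarith) (by linarith)
    have hm2 : et * F (L / Real.log p - 1) ≤ et * 4 := mul_le_mul_of_nonneg_left hF4' het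
    have hg := (G.g01 p hp).1
    have hm3 : SS true g (L - Real.log p) (bel P p) ≤
        VV g (bel P p) * F (L / Real.log p - 1) + (4 * et + e) := by
      nlinarith
    have hm4 := mul_le_mul_of_nonneg_left hm3 hg
    calc g p * SS true g (L - Real.log p) (bel P p)
        ≤ g p * (VV g (bel P p) * F (L / Real.log p - 1) + (4 * et + e)) := hm4
      _ = _ := by ring
  have hsum := Finset.sum_le_sum hterm
  rw [Finset.sum_add_distrib, ← Finset.mul_sum] at hsum
  -- partial summation
  have hPS := (h2 P (fun p => g p * VV g (bel P p)) (fun p => L / Real.log p) (L / y) (L / om) (om / L) et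
    (fun s => F (s - 1)) hab (by positivity) het ?_ ?_ ?_ ?_ ?_).2 ?_
  · have hfi := D.fi (L / y) (L / om) ha hab hb
    rw [← hfi] at hPS
    have hf1 := (D.f1 (L / om) (by linarith) hb).2
    have hF4a := hF4 (L / y - 1) (by linarith) (by linarith)
    have hq : om / L * (L / om * f (L / om) - L / y * f (L / y)) = f (L / om) - om / y * f (L / y) := by
      rw [mul_sub, ← mul_assoc, ← mul_assoc, hkb, hka, one_mul]
    rw [hq] at hPS
    have hq2 : 2 * et * F (L / y - 1) ≤ 2 * et * 4 := mul_le_mul_of_nonneg_left hF4a (by linarith)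
    rw [(h1 g L P).2]
    have hPS' : ∑ p ∈ P, g p * VV g (bel P p) * F (L / Real.log p - 1) ≤
      f (L / om) - om / y * f (L / y) + 2 * et * F (L / y - 1) := hPS
    linarith
  · intro p hp q hq hpq
    have hp1 := (G.rng p hp).1
    have hq1 := (G.rng q hq).1
    have hp0 : 0 < Real.log p := lt_of_lt_of_le hom hp1
    have hq0 : 0 < Real.log q := lt_of_lt_of_le hom hq1
    have hpq' : L / Real.log p = L / Real.log q := hpq
    rw [div_eq_div_iff hp0.ne' hq0.ne'] at hpq'
    have hlog : Real.log q = Real.log p := mul_left_cancel₀ hL0.ne' hpq'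
    have hp2 : 0 < (p : ℝ) := by
      rcases Nat.eq_zero_or_pos p with h | h
      · rw [h] at hp0; simp at hp0
      · exact_mod_cast h
    have hq2 : 0 < (q : ℝ) := by
      rcases Nat.eq_zero_or_pos q with h | h
      · rw [h] at hq0; simp at hq0
      · exact_mod_cast h
    have := Real.log_injOn_pos (Set.mem_Ioi.2 hq2) (Set.mem_Ioi.2 hp2) hlog
    exact_mod_cast this.symm
  · intro p hp
    exact ⟨hc p hp, (hx p hp).1, (hx p hp).2⟩
  · intro σ hσ1 hσ2
    have hσ0 : 0 < σ := by linarith
    have hset : P.filter (fun p : ℕ => σ < L / Real.log p) = P.filter (fun p : ℕ => Real.log p < L / σ) := by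
      apply Finset.filter_congr
      intro p hp
      have hp0 : 0 < Real.log p := lt_of_lt_of_le hom (G.rng p hp).1
      rw [lt_div_iff₀ hp0, lt_div_iff₀ hσ0, mul_comm]
    have hs : ∑ p ∈ P.filter (fun p : ℕ => σ < L / Real.log p), g p * VV g (bel P p) =
        1 - VV g (P.filter fun p : ℕ => Real.log p < L / σ) := by
      rw [hset]; exact gi4 (L / σ)
    have ht1 : om ≤ L / σ := by
      rw [le_div_iff₀ hσ0]
      have := hσ2
      rw [le_div_iff₀ hom] at this
      linarith
    have ht2 : L / σ ≤ y := by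
      rw [div_le_iff₀ hσ0]
      have := hσ1
      rw [div_le_iff₀ hy0] at this
      linarith
    have ho := G.opn (L / σ) ht1 ht2
    have hk : om / (L / σ) = om / L * σ := by field_simp
    rw [hk] at ho
    show |∑ p ∈ P.filter (fun p : ℕ => σ < L / Real.log p), g p * VV g (bel P p) - om / L * (L / om - σ)| ≤ et
    rw [hs, mul_sub, hkb]
    rw [abs_le] at ho ⊢
    constructor <;> linarith [ho.1, ho.2]
  · show |∑ p ∈ P, g p * VV g (bel P p) - om / L * (L / om - L / y)| ≤ et
    have ho := G.tot
    rw [gi2, mul_sub, hkb, hka]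
    rw [abs_le] at ho ⊢
    constructor <;> linarith [ho.1, ho.2]
  · intro s hs
    have := D.F1 (s - 1) (by linarith [hs.1]) (by linarith [hs.2])
    show 0 ≤ F (s - 1)
    linarith
  · intro s hs t ht hst
    exact D.Fa (Set.mem_Icc.2 ⟨by linarith [hs.1], by linarith [hs.2]⟩)
      (Set.mem_Icc.2 ⟨by linarith [ht.1], by linarith [ht.2]⟩) (by linarith)

end Pool.Agent.RLS
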